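import Pool.Agent.Work.MP_fcea8e_co.Dom.Count

/-!
Counting in the critical set, bounds in terms of the number of vertices of out-degree at least `D`.
-/

set_option autoImplicit false

namespace Pool.Agent.Work.MP_fcea8e_co.Dom

open Finset

variable {V : Type} {E : V → V → Prop}

open Classical in
theorem count_main2 [Fintype V] {X Y W : Finset V} (hXW : X = W ∪ Y) (hd : Disjoint W Y)
    {D s q : ℕ} (hD : 1 ≤ D) (hq : 1 ≤ q) (cl : V → ℕ)
    (h1 : ∀ z ∈ W, (outs E univ z).card < D + s)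
    (h2 : ∀ z ∈ W, 2 * D ≤ (outs E X z).card + (ins E X z).card + 1)
    (h3 : ∀ u ∈ Y, (outs E W u).card ≤ q)
    (h4 : ∑ u ∈ Y, (Y.filter (fun y => E u y ∧ cl u = cl y)).card ≤ q * Y.card)
    (h5 : ∀ u ∈ Y, 6 * q ≤ (outs E W u).card + (ins E W u).card +
      (Y.filter (fun y => E u y ∧ cl u = cl y)).card +
      (Y.filter (fun y => E y u ∧ cl u = cl y)).card) :
    2 * D * W.card ≤ 2 * ∑ z ∈ W, (outs E X z).card + W.card ∧
    ∑ z ∈ W, (ins E X z).card ≤ ∑ z ∈ W, (outs E X z).card ∧
    ∑ z ∈ W, ((outs E Y z).card + (ins E Y z).card) ≤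
      4 * (s * (W.filter (fun z => D ≤ (outs E univ z).card)).card) ∧
    ∑ z ∈ W, (outs E X z).card + W.card ≤ D * W.card +
      s * (W.filter (fun z => D ≤ (outs E univ z).card)).card ∧
    (W.card = 0 → Y.card = 0) := by
  have split_o : ∀ z, (outs E X z).card = (outs E W z).card + (outs E Y z).card := by
    intro z
    rw [hXW, outs, filter_union, card_union_of_disjoint]
    · rfl
    · exact disjoint_filter_filter hd
  have split_i : ∀ z, (ins E X z).card = (ins E W z).card + (ins E Y z).card := by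
    intro z
    rw [hXW, ins, filter_union, card_union_of_disjoint]
    · rfl
    · exact disjoint_filter_filter hd
  have hWX : W ⊆ X := by rw [hXW]; exact subset_union_left
  obtain ⟨oW, hoW⟩ : ∃ k, k = ∑ z ∈ W, (outs E W z).card := ⟨_, rfl⟩
  obtain ⟨a, ha⟩ : ∃ k, k = ∑ z ∈ W, (outs E Y z).card := ⟨_, rfl⟩
  obtain ⟨b, hb⟩ : ∃ k, k = ∑ z ∈ W, (ins E Y z).card := ⟨_, rfl⟩
  have hiW : oW = ∑ z ∈ W, (ins E W z).card := by rw [hoW, sum_outs_eq]
  have ha' : a = ∑ u ∈ Y, (ins E W u).card := by rw [ha, sum_outs_eq]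
  have hb' : b = ∑ u ∈ Y, (outs E W u).card := by rw [hb, sum_outs_eq]
  have hO : ∑ z ∈ W, (outs E X z).card = oW + a := by
    rw [hoW, ha, ← sum_add_distrib]
    exact sum_congr rfl (fun z _ => split_o z)
  have hI : ∑ z ∈ W, (ins E X z).card = oW + b := by
    rw [hiW, hb, ← sum_add_distrib]
    exact sum_congr rfl (fun z _ => split_i z)
  have hm : ∑ u ∈ Y, (Y.filter (fun y => E y u ∧ cl u = cl y)).card =
      ∑ u ∈ Y, (Y.filter (fun y => E u y ∧ cl u = cl y)).card := by
    simp only [card_filter]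
    rw [sum_comm]
    refine sum_congr rfl (fun x _ => sum_congr rfl (fun y _ => ?_))
    have : (E x y ∧ cl y = cl x) ↔ (E x y ∧ cl x = cl y) := by
      rw [eq_comm (a := cl y)]
    simp only [this]
  have e3 : b ≤ q * Y.card := by
    rw [hb']
    calc ∑ u ∈ Y, (outs E W u).card ≤ ∑ u ∈ Y, q := sum_le_sum h3
      _ = q * Y.card := by rw [sum_const, smul_eq_mul, mul_comm]
  have e5 : 6 * (q * Y.card) ≤ b + a + q * Y.card + q * Y.card := by
    have h6 := sum_le_sum h5
    rw [sum_const, smul_eq_mul, sum_add_distrib, sum_add_distrib, sum_add_distrib, hm, ← ha',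
      ← hb'] at h6
    have h7 : Y.card * (6 * q) = 6 * (q * Y.card) := by ring
    omega
  have e2 : 2 * (D * W.card) ≤ (oW + a) + (oW + b) + W.card := by
    have h6 := sum_le_sum h2
    rw [sum_const, smul_eq_mul, sum_add_distrib, sum_add_distrib, hO, hI, sum_const, smul_eq_mul,
      mul_one] at h6
    have h7 : W.card * (2 * D) = 2 * (D * W.card) := by ring
    omega
  have e1 : oW + a + W.card ≤ D * W.card +
      s * (W.filter (fun z => D ≤ (outs E univ z).card)).card := by
    have h6 : ∑ z ∈ W, ((outs E X z).card + 1) ≤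
        ∑ z ∈ W, (D + if D ≤ (outs E univ z).card then s else 0) := by
      refine sum_le_sum (fun z hz => ?_)
      have k1 : (outs E X z).card ≤ (outs E univ z).card := by
        refine card_le_card ?_
        intro y hy
        rw [outs, mem_filter] at hy ⊢
        exact ⟨mem_univ _, hy.2⟩
      have k2 := h1 z hz
      split_ifs with h
      · omega
      · omega
    rw [sum_add_distrib, hO, sum_const, smul_eq_mul, mul_one, sum_add_distrib, sum_const,
      smul_eq_mul, ← sum_filter, sum_const, smul_eq_mul] at h6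
    calc oW + a + W.card ≤ _ := h6
      _ = _ := by ring
  have e0 : s * (W.filter (fun z => D ≤ (outs E univ z).card)).card ≤ s * W.card :=
    Nat.mul_le_mul_left _ (card_filter_le _ _)
  have hab : ∑ z ∈ W, ((outs E Y z).card + (ins E Y z).card) = a + b := by
    rw [sum_add_distrib, ← ha, ← hb]
  rw [hO, hI, hab]
  obtain ⟨w0, hw0⟩ : ∃ k, k = s * (W.filter (fun z => D ≤ (outs E univ z).card)).card := ⟨_, rfl⟩
  obtain ⟨n', hn'⟩ : ∃ k, k = q * Y.card := ⟨_, rfl⟩
  obtain ⟨w1, hw1⟩ : ∃ k, k = s * W.card := ⟨_, rfl⟩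
  obtain ⟨d, hd'⟩ : ∃ k, k = D * W.card := ⟨_, rfl⟩
  rw [mul_assoc 2 D]
  rw [← hw0, ← hw1] at e0
  rw [← hw0, ← hd'] at e1
  rw [← hd'] at e2
  rw [← hn'] at e3 e5
  rw [← hw0, ← hd']
  refine ⟨by omega, by omega, by omega, by omega, ?_⟩
  intro hw
  have h9 : n' = 0 := by
    have : w1 = 0 := by rw [hw1, hw, mul_zero]
    omega
  rw [hn'] at h9
  rcases Nat.mul_eq_zero.1 h9 with h | h
  · omega
  · exact h

end Pool.Agent.Work.MP_fcea8e_co.Dom
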