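import Pool.Agent.Work.MP_fcea8e_co.Dom.Irr

/-!
Irregular vertices and the levels above them, bounds in terms of the number of vertices of out-degree at
least `D`.
-/

set_option autoImplicit false

namespace Pool.Agent.Work.MP_fcea8e_co.Dom

open Finset

variable {V : Type} {E : V → V → Prop} {X Y W : Finset V} {D g s : ℕ}

open Classical in
theorem irr_card2 [Fintype V]
    (h1 : ∀ z ∈ W, (outs E univ z).card < D + s)
    (h2 : ∀ z ∈ W, 2 * D ≤ (outs E X z).card + (ins E X z).card + 1)
    (c4 : ∑ z ∈ W, (ins E X z).card ≤ ∑ z ∈ W, (outs E X z).card)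
    (c5 : ∑ z ∈ W, ((outs E Y z).card + (ins E Y z).card) ≤
      4 * (s * (W.filter (fun z => D ≤ (outs E univ z).card)).card))
    (c6 : ∑ z ∈ W, (outs E X z).card + W.card ≤ D * W.card +
      s * (W.filter (fun z => D ≤ (outs E univ z).card)).card) :
    (irr E X Y W D g).card * g ≤
      7 * s * (W.filter (fun z => D ≤ (outs E univ z).card)).card := by
  have hirr : irr E X Y W D g ⊆ W := filter_subset _ _
  have key : ∑ z ∈ W, (D + if z ∈ irr E X Y W D g then g else 0) ≤
      ∑ z ∈ W, ((if D ≤ (outs E univ z).card then s else 0) + (ins E X z).card +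
        ((outs E Y z).card + (ins E Y z).card)) := by
    refine sum_le_sum (fun z hz => ?_)
    have k1 := h1 z hz
    have k2 := h2 z hz
    have k3 := outs_le (E := E) X z
    by_cases hd : D ≤ (outs E univ z).card
    · rw [if_pos hd]
      split_ifs with h
      · rw [irr, mem_filter] at h
        rcases h.2 with h | h | h <;> omega
      · omega
    · rw [if_neg hd]
      split_ifs with h
      · rw [irr, mem_filter] at h
        rcases h.2 with h | h | h <;> omega
      · omega
  have e1 : ∑ z ∈ W, (D + if z ∈ irr E X Y W D g then g else 0) =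
      D * W.card + (irr E X Y W D g).card * g := by
    rw [sum_add_distrib, sum_const, smul_eq_mul, mul_comm, ← sum_filter, sum_const, smul_eq_mul]
    congr 3
    ext z
    rw [mem_filter]
    exact ⟨fun h => h.2, fun h => ⟨hirr h, h⟩⟩
  have e2 : ∑ z ∈ W, (if D ≤ (outs E univ z).card then s else 0) =
      s * (W.filter (fun z => D ≤ (outs E univ z).card)).card := by
    rw [← sum_filter, sum_const, smul_eq_mul, mul_comm]
  rw [e1, sum_add_distrib, sum_add_distrib, e2] at key
  rw [mul_assoc 7 s]
  omega

open Classical in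
theorem blv_card2 [Fintype V] (hWX : W ⊆ X)
    (h1 : ∀ z ∈ W, (outs E univ z).card < D + s)
    (h2 : ∀ z ∈ W, 2 * D ≤ (outs E X z).card + (ins E X z).card + 1)
    (c4 : ∑ z ∈ W, (ins E X z).card ≤ ∑ z ∈ W, (outs E X z).card)
    (c5 : ∑ z ∈ W, ((outs E Y z).card + (ins E Y z).card) ≤
      4 * (s * (W.filter (fun z => D ≤ (outs E univ z).card)).card))
    (c6 : ∑ z ∈ W, (outs E X z).card + W.card ≤ D * W.card +
      s * (W.filter (fun z => D ≤ (outs E univ z).card)).card)
    {P : ℕ} (hP : D ≤ P * g) (h : ℕ) :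
    (blv E X Y W D g h).card * g ≤
      cst s P h * (W.filter (fun z => D ≤ (outs E univ z).card)).card := by
  obtain ⟨w0, hw0⟩ : ∃ w0, w0 = (W.filter (fun z => D ≤ (outs E univ z).card)).card := ⟨_, rfl⟩
  induction h with
  | zero => exact irr_card2 h1 h2 c4 c5 c6
  | succ h ih =>
    rw [← hw0] at ih c5 c6 ⊢
    obtain ⟨B, hB⟩ : ∃ B, B = blv E X Y W D g h := ⟨_, rfl⟩
    have hBW : B ⊆ W := by rw [hB]; exact blv_sub h
    obtain ⟨F, hF⟩ : ∃ F, F = W.filter (fun z => g < (outs E B z).card + (ins E B z).card) :=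
      ⟨_, rfl⟩
    have hbl : blv E X Y W D g (h + 1) = B ∪ F := by
      rw [hF, hB, blv]
    have f1 : F.card * g ≤ ∑ z ∈ F, ((outs E B z).card + (ins E B z).card) := by
      rw [← smul_eq_mul]
      refine card_nsmul_le_sum _ _ _ (fun z hz => ?_)
      rw [hF, mem_filter] at hz
      exact hz.2.le
    have f2 : ∑ z ∈ F, ((outs E B z).card + (ins E B z).card) ≤
        ∑ z ∈ W, ((outs E B z).card + (ins E B z).card) :=
      sum_le_sum_of_subset (by rw [hF]; exact filter_subset _ _)
    have f3 : ∑ z ∈ W, ((outs E B z).card + (ins E B z).card) =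
        ∑ z ∈ B, ((ins E W z).card + (outs E W z).card) := by
      rw [sum_add_distrib, sum_add_distrib, sum_outs_eq, ← sum_outs_eq B W]
    have f4 : ∑ z ∈ B, ((ins E W z).card + (outs E W z).card) ≤
        ∑ z ∈ B, (2 * D + ((outs E X z).card + (ins E X z).card + 1 - 2 * D)) := by
      refine sum_le_sum (fun z hz => ?_)
      have k1 : (outs E W z).card ≤ (outs E X z).card :=
        card_le_card (filter_subset_filter _ hWX)
      have k2 : (ins E W z).card ≤ (ins E X z).card :=
        card_le_card (filter_subset_filter _ hWX)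
      omega
    have f5 : ∑ z ∈ B, ((outs E X z).card + (ins E X z).card + 1 - 2 * D) ≤
        ∑ z ∈ W, ((outs E X z).card + (ins E X z).card + 1 - 2 * D) :=
      sum_le_sum_of_subset hBW
    have f6 : ∑ z ∈ W, ((outs E X z).card + (ins E X z).card + 1 - 2 * D) +
        2 * (D * W.card) ≤ 2 * (D * W.card) + 2 * (s * w0) := by
      have f7 : ∑ z ∈ W, ((outs E X z).card + (ins E X z).card + 1 - 2 * D + 2 * D) =
          ∑ z ∈ W, ((outs E X z).card + (ins E X z).card + 1) := by
        refine sum_congr rfl (fun z hz => ?_)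
        have k2 := h2 z hz
        omega
      rw [sum_add_distrib, sum_const, smul_eq_mul, sum_add_distrib, sum_add_distrib, sum_const,
        smul_eq_mul, mul_one] at f7
      have f8 : W.card * (2 * D) = 2 * (D * W.card) := by ring
      omega
    have f4b : ∑ z ∈ B, (2 * D + ((outs E X z).card + (ins E X z).card + 1 - 2 * D)) =
        B.card * (2 * D) + ∑ z ∈ B, ((outs E X z).card + (ins E X z).card + 1 - 2 * D) := by
      rw [sum_add_distrib, sum_const, smul_eq_mul]
    rw [f4b] at f4
    rw [hbl]
    rw [← hB] at ih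
    have f8 : (B ∪ F).card * g ≤ B.card * g + F.card * g := by
      rw [← add_mul]
      exact Nat.mul_le_mul_right _ (card_union_le _ _)
    have f9 : B.card * (2 * D) ≤ 2 * P * (B.card * g) := by
      calc B.card * (2 * D) ≤ B.card * (2 * (P * g)) :=
            Nat.mul_le_mul_left _ (Nat.mul_le_mul_left _ hP)
        _ = 2 * P * (B.card * g) := by ring
    have f10 : (B.card * g) + 2 * P * (B.card * g) ≤ (1 + 2 * P) * cst s P h * w0 := by
      calc (B.card * g) + 2 * P * (B.card * g) = (1 + 2 * P) * (B.card * g) := by ring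
        _ ≤ (1 + 2 * P) * (cst s P h * w0) := Nat.mul_le_mul_left _ ih
        _ = (1 + 2 * P) * cst s P h * w0 := by ring
    have f11 : cst s P (h + 1) * w0 = (1 + 2 * P) * cst s P h * w0 + 2 * (s * w0) := by
      rw [cst]
      ring
    rw [f11]
    omega

end Pool.Agent.Work.MP_fcea8e_co.Dom
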