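import Pool.Agent.Work.MP_fcea8e_co.Dom.HeavyOut
import Pool.Agent.Work.MP_fcea8e_co.Dom.ListCol
import Pool.Agent.Work.MP_fcea8e_co.Lin.Count2
import Pool.Agent.Work.MP_fcea8e_co.Lin.Irr2

/-!
The data of a critical set.
-/

set_option autoImplicit false

namespace Pool.Agent.Work.MP_fcea8e_co.Dom

open Finset

open Classical in
/-- the data of a critical set -/
structure CritData2 {V : Type} [Fintype V] (E : V → V → Prop) (D s : ℕ) where
  H : V → V → Prop
  L : V → Finset ℕ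
  X : Finset V
  Y : Finset V
  W : Finset V
  hs : ∀ x y, H x y → H y x
  hi : ∀ x, ¬ H x x
  crit : Crit H L X
  hWX : W ⊆ X
  hH : ∀ x ∈ W, ∀ y ∈ X, (H x y ↔ E x y ∨ E y x)
  hL : ∀ x ∈ W, L x = range (2 * D - 1)
  hXW : X = W ∪ Y
  hdis : Disjoint W Y
  hW : 0 < W.card
  h1 : ∀ z ∈ W, (outs E univ z).card < D + s
  h2 : ∀ z ∈ W, 2 * D ≤ (outs E X z).card + (ins E X z).card + 1
  c3 : 2 * D * W.card ≤ 2 * ∑ z ∈ W, (outs E X z).card + W.card
  c4 : ∑ z ∈ W, (ins E X z).card ≤ ∑ z ∈ W, (outs E X z).card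
  c5 : ∑ z ∈ W, ((outs E Y z).card + (ins E Y z).card) ≤
    4 * (s * (W.filter (fun z => D ≤ (outs E univ z).card)).card)
  c6 : ∑ z ∈ W, (outs E X z).card + W.card ≤ D * W.card +
    s * (W.filter (fun z => D ≤ (outs E univ z).card)).card

end Pool.Agent.Work.MP_fcea8e_co.Dom
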