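import Pool.Agent.Work.MP_fcea8e_co.Lin.Thr
import Pool.Agent.Work.MP_fcea8e_co.Dom.Excl
import Pool.Agent.Work.MP_fcea8e_co.Mixed.Side

/-!
The critical set, with the depth `J` as a parameter; the main proposition and the one-sided colouring.
-/

set_option autoImplicit false

namespace Pool.Agent.Work.MP_fcea8e_co.Dom

open Finset

theorem critJ {V : Type} [Fintype V] {E : V → V → Prop} (hE : Asym E) {s q J D : ℕ}
    (hq1 : 1 ≤ q) (hD : s + q + 12 * q * (J + 1) + 1 ≤ D) (S : Finset V)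
    (hS : ∀ x ∈ S, x ∉ poor E q J → (outs E univ x).card < D + s)
    (hcon : ¬ ∃ c : V → ℕ, (∀ x ∈ S, c x < 2 * D - 1) ∧ ∀ x ∈ S, ∀ y ∈ S, E x y → c x ≠ c y) :
    ∃ C : CritData2 E D s, ∀ x ∈ C.W, x ∈ S ∧ x ∉ poor E q J := by
  classical
  have hclt : ∀ x : V, 6 * q * (cls E q J x + 1) ≤ 12 * q * (J + 1) := by
    intro x
    have h1 := cls_lt (E := E) (q := q) J x
    calc 6 * q * (cls E q J x + 1) ≤ 6 * q * (2 * (J + 1)) :=
          Nat.mul_le_mul_left _ (by omega)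
      _ = 12 * q * (J + 1) := by ring
  obtain ⟨U, hUdef⟩ : ∃ U, U = poor E q J := ⟨_, rfl⟩
  rw [← hUdef] at hS
  rw [← hUdef]
  obtain ⟨L, hLdef⟩ : ∃ L : V → Finset ℕ, L = fun x => if x ∈ U then
      Ico (6 * q * cls E q J x) (6 * q * (cls E q J x + 1))
      else range (2 * D - 1) := ⟨_, rfl⟩
  obtain ⟨H, hHdef⟩ : ∃ H : V → V → Prop, H = fun x y => (E x y ∨ E y x) ∧
      (x ∈ U → y ∈ U → cls E q J x = cls E q J y) := ⟨_, rfl⟩
  have hLU : ∀ x, x ∈ U → L x =
      Ico (6 * q * cls E q J x) (6 * q * (cls E q J x + 1)) := by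
    intro x hx
    rw [hLdef]
    simp only [hx, if_true]
  have hLN : ∀ x, x ∉ U → L x = range (2 * D - 1) := by
    intro x hx
    rw [hLdef]
    simp only [hx, if_false]
  have hHiff : ∀ x y, H x y ↔ (E x y ∨ E y x) ∧
      (x ∈ U → y ∈ U → cls E q J x = cls E q J y) := by
    intro x y
    rw [hHdef]
  have hs : ∀ x y, H x y → H y x := by
    intro x y h
    rw [hHiff] at h ⊢
    exact ⟨h.1.symm, fun h1 h2 => (h.2 h2 h1).symm⟩
  have hi : ∀ x, ¬ H x x := by
    intro x h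
    rw [hHiff] at h
    rcases h.1 with h | h <;> exact hE _ _ h h
  have hnc : ¬ Col H L S := by
    rintro ⟨c, hc1, hc2⟩
    refine hcon ⟨c, ?_, ?_⟩
    · intro x hx
      have h1 := hc1 x hx
      by_cases hxU : x ∈ U
      · rw [hLU x hxU, mem_Ico] at h1
        have h2 := hclt x
        omega
      · rw [hLN x hxU, mem_range] at h1
        exact h1
    · intro x hx y hy hxy
      have hx1 := hc1 x hx
      have hy1 := hc1 y hy
      by_cases h : H x y
      · exact hc2 x hx y hy h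
      · rw [hHiff] at h
        push Not at h
        obtain ⟨hxU, hyU, hne⟩ := h (Or.inl hxy)
        rw [hLU x hxU, mem_Ico] at hx1
        rw [hLU y hyU, mem_Ico] at hy1
        intro he
        rw [he] at hx1
        rcases Nat.lt_or_gt_of_ne hne with h1 | h1
        · have h2 : 6 * q * (cls E q J x + 1) ≤ 6 * q * cls E q J y :=
            Nat.mul_le_mul_left _ h1
          omega
        · have h2 : 6 * q * (cls E q J y + 1) ≤ 6 * q * cls E q J x :=
            Nat.mul_le_mul_left _ h1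
          omega
  obtain ⟨X, hXS, hX⟩ := exists_crit hnc
  have hXW : X = (X \ U) ∪ (X ∩ U) := (sdiff_union_inter X U).symm
  have hdis : Disjoint (X \ U) (X ∩ U) := by
    rw [Finset.disjoint_left]
    intro x h1 h2
    exact (mem_sdiff.1 h1).2 (mem_inter.1 h2).2
  have hWX : X \ U ⊆ X := sdiff_subset
  have hWS : ∀ z ∈ X \ U, z ∈ S ∧ z ∉ U := by
    intro z hz
    obtain ⟨h1, h2⟩ := mem_sdiff.1 hz
    exact ⟨hXS h1, h2⟩
  have h1 : ∀ z ∈ X \ U, (outs E univ z).card < D + s :=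
    fun z hz => hS z (hWS z hz).1 (hWS z hz).2
  have hUL : ∀ u ∈ X, u ∈ U → L u ⊆ range (12 * q * (J + 1)) := by
    intro u _ hu a ha
    rw [hLU u hu, mem_Ico] at ha
    rw [mem_range]
    exact lt_of_lt_of_le ha.2 (hclt u)
  have hHW : ∀ x ∈ X \ U, ∀ y ∈ X, (H x y ↔ E x y ∨ E y x) := by
    intro x hx y _
    rw [hHiff]
    exact ⟨fun h => h.1, fun h => ⟨h, fun h' => absurd h' (mem_sdiff.1 hx).2⟩⟩
  have hdeg : ∀ z ∈ X \ U, D + s + q ≤ (outs E (X \ U) z).card + (ins E (X \ U) z).card := by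
    intro z hz
    have k1 := crit_deg' hs hi hX hUL (hWX hz)
    rw [hLN z (mem_sdiff.1 hz).2] at k1
    have k2 : 2 * D - 1 - 12 * q * (J + 1) ≤
        (range (2 * D - 1) \ range (12 * q * (J + 1))).card := by
      have := le_card_sdiff (range (12 * q * (J + 1))) (range (2 * D - 1))
      rw [card_range, card_range] at this
      exact this
    have k3 : (X \ U).filter (fun y => H z y) ⊆ outs E (X \ U) z ∪ ins E (X \ U) z := by
      intro y hy
      rw [mem_filter] at hy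
      rw [mem_union, outs, ins, mem_filter, mem_filter]
      rcases ((hHW z hz y (hWX hy.1)).1 hy.2) with h | h
      · exact Or.inl ⟨hy.1, h⟩
      · exact Or.inr ⟨hy.1, h⟩
    have k4 := (card_le_card k3).trans (card_union_le _ _)
    omega
  have hlev := excl (E := E) (q := q) (J := J) (D := D + s) (W := X \ U)
    (fun z hz => by rw [← hUdef]; exact (mem_sdiff.1 hz).2) h1 hdeg J le_rfl
  have h2 : ∀ z ∈ X \ U, 2 * D ≤ (outs E X z).card + (ins E X z).card + 1 := by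
    intro z hz
    have k1 := crit_deg hs hi hX (hWX hz)
    rw [hLN z (mem_sdiff.1 hz).2, card_range] at k1
    have k3 : X.filter (fun y => H z y) ⊆ outs E X z ∪ ins E X z := by
      intro y hy
      rw [mem_filter] at hy
      rw [mem_union, outs, ins, mem_filter, mem_filter]
      rcases ((hHW z hz y hy.1).1 hy.2) with h | h
      · exact Or.inl ⟨hy.1, h⟩
      · exact Or.inr ⟨hy.1, h⟩
    have k4 := (card_le_card k3).trans (card_union_le _ _)
    omega
  have h3 : ∀ u ∈ X ∩ U, (outs E (X \ U) u).card ≤ q := by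
    intro u hu
    have k1 := (mem_inter.1 hu).2
    rw [hUdef, mem_poor] at k1
    have k2 : outs E (X \ U) u ⊆ outs E univ u \ lev E q J := by
      intro y hy
      rw [outs, mem_filter] at hy
      rw [mem_sdiff, outs, mem_filter]
      exact ⟨⟨mem_univ _, hy.2⟩, hlev y hy.1⟩
    exact (card_le_card k2).trans k1.le
  have h4 : ∑ u ∈ X ∩ U, ((X ∩ U).filter
      (fun y => E u y ∧ cls E q J u = cls E q J y)).card ≤ q * (X ∩ U).card := by
    refine same_class ?_
    rw [← hUdef]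
    exact inter_subset_right
  have h5 : ∀ u ∈ X ∩ U, 6 * q ≤ (outs E (X \ U) u).card + (ins E (X \ U) u).card +
      ((X ∩ U).filter (fun y => E u y ∧ cls E q J u = cls E q J y)).card +
      ((X ∩ U).filter (fun y => E y u ∧ cls E q J u = cls E q J y)).card := by
    intro u hu
    obtain ⟨huX, huU⟩ := mem_inter.1 hu
    have k1 := crit_deg hs hi hX huX
    rw [hLU u huU, Nat.card_Ico] at k1
    have k2 : 6 * q * (cls E q J u + 1) - 6 * q * cls E q J u = 6 * q := by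
      rw [Nat.mul_add, Nat.add_sub_cancel_left, mul_one]
    rw [k2] at k1
    have k3 : X.filter (fun y => H u y) ⊆ outs E (X \ U) u ∪ ins E (X \ U) u ∪
        (X ∩ U).filter (fun y => E u y ∧ cls E q J u = cls E q J y) ∪
        (X ∩ U).filter (fun y => E y u ∧ cls E q J u = cls E q J y) := by
      intro y hy
      rw [mem_filter] at hy
      obtain ⟨hyX, hy2⟩ := hy
      rw [hHiff] at hy2
      rw [mem_union, mem_union, mem_union, outs, ins, mem_filter, mem_filter, mem_filter,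
        mem_filter, mem_sdiff, mem_inter]
      by_cases hyU : y ∈ U
      · have hc := hy2.2 huU hyU
        rcases hy2.1 with h | h
        · exact Or.inl (Or.inr ⟨⟨hyX, hyU⟩, h, hc⟩)
        · exact Or.inr ⟨⟨hyX, hyU⟩, h, hc⟩
      · rcases hy2.1 with h | h
        · exact Or.inl (Or.inl (Or.inl ⟨⟨hyX, hyU⟩, h⟩))
        · exact Or.inl (Or.inl (Or.inr ⟨⟨hyX, hyU⟩, h⟩))
    have k4 := card_le_card k3
    have k5 := card_union_le (outs E (X \ U) u ∪ ins E (X \ U) u ∪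
        (X ∩ U).filter (fun y => E u y ∧ cls E q J u = cls E q J y))
      ((X ∩ U).filter (fun y => E y u ∧ cls E q J u = cls E q J y))
    have k6 := card_union_le (outs E (X \ U) u ∪ ins E (X \ U) u)
        ((X ∩ U).filter (fun y => E u y ∧ cls E q J u = cls E q J y))
    have k7 := card_union_le (outs E (X \ U) u) (ins E (X \ U) u)
    omega
  obtain ⟨c3, c4, c5, c6, c7⟩ := count_main2 (E := E) hXW hdis (D := D) (s := s) (q := q)
    (by omega) hq1 (cls E q J) h1 h2 h3 h4 h5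
  have hW : 0 < (X \ U).card := by
    rw [Nat.pos_iff_ne_zero]
    intro h0
    have h00 := c7 h0
    have hne := crit_nonempty hX
    rw [hXW] at hne
    rw [card_eq_zero] at h0 h00
    rw [h0, h00, union_empty] at hne
    exact not_nonempty_empty hne
  exact ⟨{ H := H, L := L, X := X, Y := X ∩ U, W := X \ U, hs := hs, hi := hi, crit := hX,
           hWX := hWX, hH := hHW, hL := fun x hx => hLN x (mem_sdiff.1 hx).2, hXW := hXW,
           hdis := hdis, hW := hW, h1 := h1, h2 := h2, c3 := c3, c4 := c4, c5 := c5, c6 := c6 },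
    hWS⟩

theorem main_propJ {κ : Type} [Fintype κ] (R : RT κ) {s J : ℕ}
    (hJ : ∀ t, R.dep t ≤ J) (hcard : Fintype.card κ ≤ R.outCh.card + 1 + s)
    (hD : thr s J ≤ R.outCh.card) : Main R := by
  classical
  intro V _ E hE hno
  by_contra hcon
  obtain ⟨U, hUdef⟩ : ∃ U, U = poor E (2 * s + 1) J := ⟨_, rfl⟩
  obtain ⟨Top, hTop⟩ : ∃ Top : Finset V, ∀ x, x ∈ Top ↔ (x ∉ U ∧
      ¬ ∃ f : κ → V, R.AncCopy E f ∧ f R.v = x ∧ ∀ t, R.Anc t → f t ∉ U) :=
    ⟨univ.filter (fun x => x ∉ U ∧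
      ¬ ∃ f : κ → V, R.AncCopy E f ∧ f R.v = x ∧ ∀ t, R.Anc t → f t ∉ U), fun x => by simp⟩
  have hT1 : ¬ ∃ f : κ → V, R.AncCopy E f ∧ ∀ t, R.Anc t → f t ∈ Top := by
    rintro ⟨f, hf, hfT⟩
    have h1 := (hTop _).1 (hfT R.v RT.Anc.root)
    exact h1.2 ⟨f, hf, rfl, fun t ht => ((hTop _).1 (hfT t ht)).1⟩
  have hcon' : ¬ ∃ c : V → ℕ, (∀ x ∈ univ \ Top, c x < 2 * R.outCh.card - 1) ∧
      ∀ x ∈ univ \ Top, ∀ y ∈ univ \ Top, E x y → c x ≠ c y := by
    rintro ⟨c, h1, h2⟩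
    refine hcon ⟨Top, hT1, c, fun x hx => h1 x (mem_sdiff.2 ⟨mem_univ _, hx⟩),
      fun x y hx hy hxy => h2 x (mem_sdiff.2 ⟨mem_univ _, hx⟩) y
        (mem_sdiff.2 ⟨mem_univ _, hy⟩) hxy⟩
  obtain ⟨C, hC⟩ := critJ hE (q := 2 * s + 1) (by omega) (thr_a hD) (univ \ Top) (by
    intro z hz hzU
    rw [← hUdef] at hzU
    have hzT := (mem_sdiff.1 hz).2
    rw [hTop] at hzT
    push Not at hzT
    obtain ⟨f, hf, hfz, hfU⟩ := hzT hzU
    rw [← hfz]
    refine heavy_out R E hE hno (R.card_core hcard) hJ hcard hf ?_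
    rw [← hUdef]
    exact hfU) hcon'
  obtain ⟨f, hf, _⟩ := prop2T R hE hJ hcard hD C
  exact hno ⟨f, hf⟩

theorem sideJ {κ V : Type} [Fintype κ] [Fintype V] (R : RT κ) {E : V → V → Prop} (hE : Asym E)
    {s J : ℕ} (hJ : ∀ t, R.dep t ≤ J)
    (hcard : Fintype.card κ ≤ R.outCh.card + 1 + s)
    (hD : thr s J ≤ R.outCh.card) (Z : Finset V)
    (hno : ¬ ∃ f : κ → V, R.Copy E f ∧ f R.v ∈ Z) :
    ∃ c : V → ℕ, (∀ x, (x ∈ poor E (2 * s + 1) J ∨
        (x ∈ Z ∧ x ∉ lev E (2 * s + 1) (J + 1))) → c x < 2 * R.outCh.card - 1) ∧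
      ∀ x y, (x ∈ poor E (2 * s + 1) J ∨ (x ∈ Z ∧ x ∉ lev E (2 * s + 1) (J + 1))) →
        (y ∈ poor E (2 * s + 1) J ∨ (y ∈ Z ∧ y ∉ lev E (2 * s + 1) (J + 1))) →
        E x y → c x ≠ c y := by
  classical
  by_contra hcon
  obtain ⟨S, hS⟩ : ∃ S : Finset V, ∀ x, x ∈ S ↔ (x ∈ poor E (2 * s + 1) J ∨
      (x ∈ Z ∧ x ∉ lev E (2 * s + 1) (J + 1))) :=
    ⟨univ.filter (fun x => x ∈ poor E (2 * s + 1) J ∨
      (x ∈ Z ∧ x ∉ lev E (2 * s + 1) (J + 1))), fun x => by simp⟩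
  have hcon' : ¬ ∃ c : V → ℕ, (∀ x ∈ S, c x < 2 * R.outCh.card - 1) ∧
      ∀ x ∈ S, ∀ y ∈ S, E x y → c x ≠ c y := by
    rintro ⟨c, h1, h2⟩
    exact hcon ⟨c, fun x hx => h1 x ((hS x).2 hx),
      fun x y hx hy hxy => h2 x ((hS x).2 hx) y ((hS y).2 hy) hxy⟩
  obtain ⟨C, hC⟩ := critJ hE (q := 2 * s + 1) (by omega) (thr_a hD) S (by
    intro z hz hzU
    rcases (hS z).1 hz with h | ⟨h1, h2⟩
    · exact absurd h hzU
    · by_contra hlt
      obtain ⟨f, hf, hfz⟩ := heavy_root R E hE (R.card_core hcard) hJ hcard h2 (not_lt.1 hlt)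
      exact hno ⟨f, hf, hfz ▸ h1⟩) hcon'
  obtain ⟨f, hf, hfW⟩ := prop2T R hE hJ hcard hD C
  obtain ⟨h1, h2⟩ := hC _ hfW
  rcases (hS _).1 h1 with h | h
  · exact absurd h h2
  · exact hno ⟨f, hf, h.1⟩

end Pool.Agent.Work.MP_fcea8e_co.Dom
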