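import Pool.Agent.Work.MP_fcea8e_co.Lin.CritJ
import Pool.Agent.Work.MP_fcea8e_co.Mixed.Main
import Pool.Agent.Work.MP_fcea8e_co.Broom.Iso

/-!
Final forms, with the radius as a parameter.
-/

set_option autoImplicit false

namespace Pool.Agent.Work.MP_fcea8e_co.Dom

open Finset

/-- `exists_rt` with the depth -/
theorem exists_rt' {κ : Type} [Fintype κ] (T : Digraph κ) (ho : Oriented T)
    (ht : (SimpleGraph.fromRel T.Adj).IsTree) (v : κ) : ∃ R : RT κ, Describes R T v ∧
      ∀ t, R.dep t = (SimpleGraph.fromRel T.Adj).dist t v := by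
  classical
  obtain ⟨G, hG⟩ : ∃ G : SimpleGraph κ, G = SimpleGraph.fromRel T.Adj := ⟨_, rfl⟩
  rw [← hG] at ht ⊢
  have hGadj : ∀ a b, G.Adj a b ↔ a ≠ b ∧ (T.Adj a b ∨ T.Adj b a) := by
    intro a b
    rw [hG, SimpleGraph.fromRel_adj]
  have hex : ∀ t, t ≠ v → ∃ u, G.Adj t u ∧ G.dist u v + 1 = G.dist t v := by
    intro t htv
    obtain ⟨w, hw⟩ := ht.connected.exists_walk_length_eq_dist t v
    cases w with
    | nil => exact absurd rfl htv
    | cons h q =>
      rename_i u
      refine ⟨u, h, ?_⟩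
      rw [SimpleGraph.Walk.length_cons] at hw
      have h1 : G.dist u v ≤ q.length := SimpleGraph.dist_le q
      obtain ⟨q', hq'⟩ := ht.connected.exists_walk_length_eq_dist u v
      have h2 : G.dist t v ≤ (SimpleGraph.Walk.cons h q').length := SimpleGraph.dist_le _
      rw [SimpleGraph.Walk.length_cons] at h2
      omega
  choose! p hp1 hp2 using hex
  have himg : (Finset.univ.erase v).image (fun t => s(t, p t)) = G.edgeFinset := by
    apply Finset.eq_of_subset_of_card_le
    · intro e he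
      obtain ⟨t, ht1, ht2⟩ := Finset.mem_image.1 he
      rw [← ht2, SimpleGraph.mem_edgeFinset, SimpleGraph.mem_edgeSet]
      exact hp1 t (Finset.ne_of_mem_erase ht1)
    · rw [Finset.card_image_of_injOn]
      · rw [Finset.card_erase_of_mem (Finset.mem_univ _), Finset.card_univ]
        have := ht.card_edgeFinset
        omega
      · intro a ha b hb hab
        have ha' := Finset.ne_of_mem_erase (Finset.mem_coe.1 ha)
        have hb' := Finset.ne_of_mem_erase (Finset.mem_coe.1 hb)
        simp only [Sym2.eq_iff] at hab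
        rcases hab with h | h
        · exact h.1
        · exfalso
          have h1 := hp2 a ha'
          have h2 := hp2 b hb'
          rw [h.2] at h1
          rw [← h.1] at h2
          omega
  refine ⟨{ v := v, p := p, dir := fun t => decide (T.Adj (p t) t), dep := fun t => G.dist t v,
            dep_v := by simp, dep_p := hp2 }, ⟨rfl, ?_⟩, fun t => rfl⟩
  intro a b
  simp only [decide_eq_false_iff_not, decide_eq_true_eq]
  constructor
  · intro hab
    have hne : a ≠ b := fun h => ho _ _ hab (h ▸ hab)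
    have h1 : s(a, b) ∈ G.edgeFinset := by
      rw [SimpleGraph.mem_edgeFinset, SimpleGraph.mem_edgeSet, hGadj]
      exact ⟨hne, Or.inl hab⟩
    rw [← himg] at h1
    obtain ⟨t, ht1, ht2⟩ := Finset.mem_image.1 h1
    have ht3 := Finset.ne_of_mem_erase ht1
    simp only [Sym2.eq_iff] at ht2
    rcases ht2 with h | h
    · left
      obtain ⟨h2, h3⟩ := h
      subst h2
      exact ⟨ht3, h3, fun h4 => ho _ _ hab (h3 ▸ h4)⟩
    · right
      obtain ⟨h2, h3⟩ := h
      subst h2
      exact ⟨ht3, h3, h3 ▸ hab⟩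
  · rintro (⟨h1, h2, h3⟩ | ⟨h1, h2, h3⟩)
    · have h4 := (hGadj _ _).1 (hp1 a h1)
      rcases h4.2 with h5 | h5
      · exact h2 ▸ h5
      · exact absurd h5 h3
    · rw [← h2]
      exact h3

theorem reductionJ {κ : Type} [Fintype κ] {T : Digraph κ} {v : κ} {s J : ℕ} (ho : Oriented T)
    (ht : (SimpleGraph.fromRel T.Adj).IsTree)
    (hJ : s + 1 ≤ J ∨ ∀ x, (SimpleGraph.fromRel T.Adj).dist x v ≤ J)
    (hΔ : (s + 1) * 1000 ^ ((J + 2) * (J + 3)) ≤ outDeg T v)
    (hs : Fintype.card κ ≤ outDeg T v + 1 + s) :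
    tNum T = 2 * outDeg T v - 1 + tNum (anc T v) ∧
    cNum T = 2 * outDeg T v - 1 + cNum (anc T v) := by
  obtain ⟨R, hR, hdep⟩ := exists_rt' T ho ht v
  have h1 : R.outCh.card = outDeg T v := outCh_card hR
  have h2 : 1 ≤ (s + 1) * 1000 ^ ((J + 2) * (J + 3)) := Nat.mul_pos (by omega) (by positivity)
  have hpos : 1 ≤ R.outCh.card := by omega
  have hcard : Fintype.card κ ≤ R.outCh.card + 1 + s := by rw [h1]; exact hs
  have hJ' : ∀ t, R.dep t ≤ J := by
    intro t
    rcases hJ with h | h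
    · exact (R.dep_le hcard t).trans h
    · rw [hdep]
      exact h t
  have hmain : Main R := main_propJ R hJ' hcard (by rw [h1]; exact hΔ)
  have hc := cSet_ne R
  have ht' : (tSet R.pC).Nonempty := hc.mono (cSet_sub_tSet _)
  rw [tNum_eq hR, cNum_eq hR, tNum_anc_eq hR, cNum_anc_eq hR, ← h1]
  exact ⟨le_antisymm (upper_t R hpos hmain) (lower_t R hpos ht'),
    le_antisymm (upper_c R hpos hmain) (lower_c R hpos hc)⟩

theorem dep_le2 {κ : Type} [Fintype κ] (R : RT κ) {s : ℕ}
    (h : Fintype.card κ ≤ R.outCh.card + R.flip.outCh.card + 1 + s) (t : κ) :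
    R.dep t ≤ s + 1 := by
  classical
  have hex : ∀ n : ℕ, ∀ t : κ, R.dep t = n → ∀ j, j ≤ n → ∃ t', R.dep t' = j := by
    intro n
    induction n with
    | zero => intro t ht j hj; exact ⟨t, by omega⟩
    | succ n ih =>
      intro t ht j hj
      rcases Nat.lt_or_eq_of_le hj with h1 | h1
      · have htv : t ≠ R.v := by
          intro h2
          rw [h2, R.dep_v] at ht
          omega
        have h3 := R.dep_p t htv
        exact ih (R.p t) (by omega) j (by omega)
      · exact ⟨t, by omega⟩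
  have h1 : Icc 2 (R.dep t) ⊆ R.rest2.image R.dep := by
    intro j hj
    rw [mem_Icc] at hj
    obtain ⟨t', ht'⟩ := hex _ t rfl j hj.2
    refine mem_image.2 ⟨t', ?_, ht'⟩
    rw [RT.rest2, mem_filter]
    have h3 : t' ≠ R.v := by
      intro h2
      rw [h2, R.dep_v] at ht'
      omega
    refine ⟨mem_univ _, h3, fun h4 => ?_⟩
    have h5 := R.dep_p t' h3
    rw [h4, R.dep_v] at h5
    omega
  have h2 := (card_le_card h1).trans card_image_le
  rw [Nat.card_Icc] at h2
  have h3 := R.card_rest2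
  omega

/-- the vertices of one side -/
def OneSideJ {V : Type} [Fintype V] (E : V → V → Prop) (s J δ : ℕ) (x : V) : Prop :=
  x ∈ poor E (2 * (2 * s) + 1) J ∨
    (δ + (2 * (2 * s) + 1) ≤ (ins E univ x).card ∧ x ∉ lev E (2 * (2 * s) + 1) (J + 1))

theorem halfJ {κ V : Type} [Fintype κ] [Fintype V] (R : RT κ) {E : V → V → Prop} (hE : Asym E)
    {s J : ℕ} (hJ : ∀ t, R.dep t ≤ J)
    (hcard : Fintype.card κ ≤ R.outCh.card + R.flip.outCh.card + 1 + s)
    (hΔ : thr (2 * s) J ≤ R.outCh.card) (hno : ¬ ∃ f : κ → V, R.Copy E f) :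
    ∃ c : V → ℕ, (∀ x, OneSideJ E s J R.flip.outCh.card x → c x < 2 * R.outCh.card - 1) ∧
      ∀ x y, OneSideJ E s J R.flip.outCh.card x → OneSideJ E s J R.flip.outCh.card y →
        E x y → c x ≠ c y := by
  classical
  have hdc := R.del_card_le hcard
  have hdo := R.del_outCh_card
  have hcore := R.del.card_core hdc
  obtain ⟨Z, hZ⟩ : ∃ Z : Finset V, ∀ x, x ∈ Z ↔
      R.flip.outCh.card + (2 * (2 * s) + 1) ≤ (ins E univ x).card :=
    ⟨univ.filter (fun x => R.flip.outCh.card + (2 * (2 * s) + 1) ≤ (ins E univ x).card),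
      fun x => by simp⟩
  have hno' : ¬ ∃ f : R.Sub → V, R.del.Copy E f ∧ f R.del.v ∈ Z := by
    rintro ⟨f, hf, hfZ⟩
    refine hno (R.copy_of_del hE hf ?_)
    have h1 := (hZ _).1 hfZ
    have h2 := R.flip.card_outCh
    omega
  obtain ⟨c, hc1, hc2⟩ := sideJ R.del hE (J := J) (fun t => hJ t.1) hdc
    (by rw [hdo]; exact hΔ) Z hno'
  rw [hdo] at hc1
  refine ⟨c, fun x hx => hc1 x ?_, fun x y hx hy hxy => hc2 x y ?_ ?_ hxy⟩
  · rcases hx with h | ⟨h1, h2⟩
    · exact Or.inl h
    · exact Or.inr ⟨(hZ _).2 h1, h2⟩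
  · rcases hx with h | ⟨h1, h2⟩
    · exact Or.inl h
    · exact Or.inr ⟨(hZ _).2 h1, h2⟩
  · rcases hy with h | ⟨h1, h2⟩
    · exact Or.inl h
    · exact Or.inr ⟨(hZ _).2 h1, h2⟩

theorem thr_big (s J : ℕ) : 1000 * (2 * s + 1) ≤ thr (2 * s) J := by
  unfold thr
  have h1 : 1000 ^ 1 ≤ 1000 ^ ((J + 2) * (J + 3)) :=
    Nat.pow_le_pow_right (by norm_num) (by nlinarith)
  calc 1000 * (2 * s + 1) = (2 * s + 1) * 1000 ^ 1 := by ring
    _ ≤ (2 * s + 1) * 1000 ^ ((J + 2) * (J + 3)) := Nat.mul_le_mul_left _ h1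

theorem mixed_kcJ {κ V : Type} [Fintype κ] [Fintype V] (R : RT κ) {E : V → V → Prop}
    (hE : Asym E) {s J : ℕ} (hJ : ∀ t, R.dep t ≤ J)
    (hcard : Fintype.card κ ≤ R.outCh.card + R.flip.outCh.card + 1 + s)
    (hΔ : thr (2 * s) J ≤ R.outCh.card)
    (hδ : thr (2 * s) J ≤ R.flip.outCh.card) (hno : ¬ ∃ f : κ → V, R.Copy E f)
    (hdeg : ∀ x, 2 * R.outCh.card + 2 * R.flip.outCh.card - 2 ≤
      (outs E univ x).card + (ins E univ x).card) :
    KC E (2 * R.outCh.card + 2 * R.flip.outCh.card - 2) := by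
  classical
  have hD0 := (thr_big s J).trans hΔ
  have hD0' := (thr_big s J).trans hδ
  obtain ⟨c1, h11, h12⟩ := halfJ R hE hJ hcard hΔ hno
  have hff : R.flip.flip.outCh.card = R.outCh.card := by rw [R.flip_flip]
  have hno2 : ¬ ∃ f : κ → V, R.flip.Copy (fun a b => E b a) f := by
    rintro ⟨f, hf⟩
    exact hno ⟨f, R.copy_flip.1 hf⟩
  obtain ⟨c2, h21, h22⟩ := halfJ R.flip (E := fun a b => E b a) (fun a b h1 h2 => hE _ _ h1 h2)
    (s := s) (J := J) hJ (by rw [hff]; omega) hδ hno2
  rw [hff] at h21 h22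
  have hcov : ∀ x, ¬ OneSideJ E s J R.flip.outCh.card x →
      OneSideJ (fun a b => E b a) s J R.outCh.card x := by
    intro x hx
    rw [OneSideJ, not_or, not_and_or, not_not] at hx
    obtain ⟨hx1, hx2⟩ := hx
    rw [mem_poor] at hx1
    rw [OneSideJ, mem_poor, lev_rev E _ J, lev_rev E _ (J + 1)]
    by_cases hl : x ∈ lev E (2 * (2 * s) + 1) (J + 1)
    · left
      rw [lev, mem_filter] at hl
      rcases hl.2 with h | h
      · exact absurd h hx1
      · exact h
    · right
      refine ⟨?_, hl⟩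
      rcases hx2 with h | h
      · have h3 := hdeg x
        have h4 : (ins (fun a b => E b a) univ x).card = (outs E univ x).card := rfl
        rw [h4]
        omega
      · exact absurd h hl
  refine ⟨fun x => if OneSideJ E s J R.flip.outCh.card x then c1 x else
    (2 * R.outCh.card - 1) + c2 x, fun x => ?_, fun x y hxy => ?_⟩
  · by_cases hx : OneSideJ E s J R.flip.outCh.card x
    · simp only [hx, if_true]
      have := h11 x hx
      omega
    · simp only [hx, if_false]
      have := h21 x (hcov x hx)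
      omega
  · by_cases hx : OneSideJ E s J R.flip.outCh.card x
    · by_cases hy : OneSideJ E s J R.flip.outCh.card y
      · simp only [hx, hy, if_true]
        exact h12 x y hx hy hxy
      · simp only [hx, hy, if_true, if_false]
        have := h11 x hx
        omega
    · by_cases hy : OneSideJ E s J R.flip.outCh.card y
      · simp only [hx, hy, if_true, if_false]
        have := h11 y hy
        omega
      · simp only [hx, hy, if_false]
        have := h22 y x (hcov y hy) (hcov x hx) hxy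
        omega

theorem mixed_lower {κ : Type} [Fintype κ] (R : RT κ) (hp1 : 1 ≤ R.outCh.card)
    (hp2 : 1 ≤ R.flip.outCh.card) (n : ℕ) (hn : n ∈ tSet R.pC) :
    2 * (R.outCh.card + R.flip.outCh.card) - 1 ≤ n := by
  classical
  by_contra hlt
  rw [not_le] at hlt
  obtain ⟨E1, hA1, hT1, _, hi1⟩ := reg_tour R.flip.outCh.card hp2
  obtain ⟨E2, hA2, hT2, ho2, _⟩ := reg_tour R.outCh.card hp1
  obtain ⟨e⟩ : Nonempty (Fin n ↪ Fin (2 * R.flip.outCh.card - 1) ⊕
      Fin (2 * R.outCh.card - 1)) := Function.Embedding.nonempty_of_card_le (by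
    rw [Fintype.card_fin, Fintype.card_sum, Fintype.card_fin, Fintype.card_fin]
    omega)
  obtain ⟨f, hf⟩ := hn (fun a b => stk E1 E2 (e a) (e b)) (asym_pull e (stk_asym hA1 hA2))
    (tour_pull e.injective (stk_tour hT1 hT2))
  have hf' := copy_pull R e.injective hf
  rcases h1 : e (f R.v) with z | z
  · have h2 := copy_in R hf'
    rw [h1] at h2
    have h3 : ins (stk E1 E2) univ (Sum.inl z) ⊆ (ins E1 univ z).image Sum.inl := by
      intro y hy
      rw [ins, mem_filter] at hy
      rcases y with y | y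
      · refine mem_image.2 ⟨y, ?_, rfl⟩
        rw [ins, mem_filter]
        exact ⟨mem_univ _, hy.2⟩
      · exact hy.2.elim
    have h4 := (card_le_card h3).trans card_image_le
    exact absurd (hi1 z) (not_lt.2 (h2.trans h4))
  · have h2 := copy_out R hf'
    rw [h1] at h2
    have h3 : outs (stk E1 E2) univ (Sum.inr z) ⊆ (outs E2 univ z).image Sum.inr := by
      intro y hy
      rw [outs, mem_filter] at hy
      rcases y with y | y
      · exact hy.2.elim
      · refine mem_image.2 ⟨y, ?_, rfl⟩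
        rw [outs, mem_filter]
        exact ⟨mem_univ _, hy.2⟩
    have h4 := (card_le_card h3).trans card_image_le
    exact absurd (ho2 z) (not_lt.2 (h2.trans h4))

theorem mixedJ {κ : Type} [Fintype κ] {T : Digraph κ} {v : κ} {s J : ℕ} (ho : Oriented T)
    (ht : (SimpleGraph.fromRel T.Adj).IsTree)
    (hJ : s + 1 ≤ J ∨ ∀ x, (SimpleGraph.fromRel T.Adj).dist x v ≤ J)
    (hΔ : (2 * s + 1) * 1000 ^ ((J + 2) * (J + 3)) ≤ outDeg T v)
    (hδ : (2 * s + 1) * 1000 ^ ((J + 2) * (J + 3)) ≤ inDeg T v)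
    (hs : Fintype.card κ ≤ outDeg T v + inDeg T v + 1 + s) :
    tNum T = 2 * (outDeg T v + inDeg T v) - 1 ∧ cNum T = 2 * (outDeg T v + inDeg T v) - 1 := by
  obtain ⟨R, hR, hdep⟩ := exists_rt' T ho ht v
  have h1 : R.outCh.card = outDeg T v := outCh_card hR
  have h2 : R.flip.outCh.card = inDeg T v := inCh_card hR
  have hcard : Fintype.card κ ≤ R.outCh.card + R.flip.outCh.card + 1 + s := by
    rw [h1, h2]; exact hs
  have hJ' : ∀ t, R.dep t ≤ J := by
    intro t
    rcases hJ with h | h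
    · exact (dep_le2 R hcard t).trans h
    · rw [hdep]
      exact h t
  have hΔ' : thr (2 * s) J ≤ R.outCh.card := by rw [h1]; exact hΔ
  have hδ' : thr (2 * s) J ≤ R.flip.outCh.card := by rw [h2]; exact hδ
  have hb := thr_big s J
  rw [tNum_eq hR, cNum_eq hR, ← h1, ← h2]
  apply num_eq
  · intro m E hE hK
    by_contra hno
    obtain ⟨X, h3, h4⟩ := Broom.exists_critical hE
      (hK (2 * R.outCh.card + 2 * R.flip.outCh.card - 2) (by omega))
    refine h3 (mixed_kcJ R (fun _ _ h5 h6 => hE _ _ h5 h6) hJ' hcard hΔ' hδ' ?_ h4)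
    rintro ⟨f, hf⟩
    exact hno ⟨_, copy_pull R (e := fun x : {x // x ∈ X} => (x : Fin m))
      Subtype.val_injective hf⟩
  · intro n hn
    exact mixed_lower R (by omega) (by omega) n hn

end Pool.Agent.Work.MP_fcea8e_co.Dom
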