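import Pool.Agent.Work.MP_fcea8e_co.Lin.Crit2
import Pool.Agent.Work.MP_fcea8e_co.Dom.ClaimM
import Pool.Agent.Work.MP_fcea8e_co.Dom.InN
import Pool.Agent.Work.MP_fcea8e_co.Dom.EmbedZ

/-!
The copy in the critical set, with the depth `J` of the tree as a parameter (see `Dom.Prop2`).
-/

set_option autoImplicit false

namespace Pool.Agent.Work.MP_fcea8e_co.Dom

open Finset

open Classical in
theorem prop2J {κ V : Type} [Fintype κ] [Fintype V] (R : RT κ) {E : V → V → Prop} (hE : Asym E)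
    {s g J : ℕ} (hJ : ∀ t, R.dep t ≤ J)
    (hg1 : 1000 ^ (J + 2) * g ≤ R.outCh.card) (hg2 : R.outCh.card ≤ 2 * 1000 ^ (J + 2) * g)
    (hg3 : cst s (2 * 1000 ^ (J + 2)) (J + 1) < g) (hg4 : R.core.card + s + 1 ≤ g)
    (C : CritData2 E R.outCh.card s) : ∃ f : κ → V, R.Copy E f ∧ f R.v ∈ C.W := by
  obtain ⟨H, L, X, Y, W, hs, hi, crit, hWX, hH, hL, hXW, hdis, hW, h1, h2, c3, c4, c5, c6⟩ := C
  set D := R.outCh.card with hDdef
  have hg0 : 1 ≤ g := by omega
  have hD1 : 1 ≤ D := by
    have : 1 ≤ 1000 ^ (J + 2) * g := Nat.mul_pos (by positivity) hg0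
    omega
  set B := blv E X Y W D g with hB
  have hB0 : B 0 = irr E X Y W D g := rfl
  have hBmono : ∀ {h h' : ℕ}, h ≤ h' → B h ⊆ B h' := fun hh => blv_mono hh
  have hBc := blv_card2 (E := E) (Y := Y) (g := g) hWX h1 h2 c4 c5 c6 hg2 (J + 1)
  -- the vertex z
  obtain ⟨z, hzW, hzD, hzB⟩ : ∃ z ∈ W, D ≤ (outs E univ z).card ∧ z ∉ B (J + 1) := by
    by_contra hcon
    push Not at hcon
    set W0 := W.filter (fun z => D ≤ (outs E univ z).card) with hW0
    have hw0 : 0 < W0.card := by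
      rw [Nat.pos_iff_ne_zero]
      intro h0
      rw [h0, mul_zero, add_zero] at c6
      rw [mul_assoc] at c3
      omega
    have hsub : W0 ⊆ B (J + 1) := by
      intro z hz
      rw [hW0, mem_filter] at hz
      exact hcon z hz.1 hz.2
    have h3 := card_le_card hsub
    have h5 : W0.card * g ≤ cst s (2 * 1000 ^ (J + 2)) (J + 1) * W0.card :=
      (Nat.mul_le_mul_right _ h3).trans hBc
    have h6 : cst s (2 * 1000 ^ (J + 2)) (J + 1) * W0.card < g * W0.card :=
      Nat.mul_lt_mul_of_pos_right hg3 hw0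
    rw [mul_comm g] at h6
    omega
  set N := outs E univ z with hN
  have hNc : N.card ≤ D + g := by
    have := h1 z hzW
    rw [← hN] at this
    omega
  -- regular vertices
  have hX1 : ∀ u, (outs E X u).card ≤ (outs E W u).card + (outs E Y u).card := by
    intro u
    rw [hXW]
    refine le_trans (card_le_card ?_) (card_union_le _ _)
    intro y hy
    rw [outs, mem_filter, mem_union] at hy
    rw [mem_union, outs, outs, mem_filter, mem_filter]
    rcases hy.1 with h | h
    · exact Or.inl ⟨h, hy.2⟩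
    · exact Or.inr ⟨h, hy.2⟩
  have hX2 : ∀ u, (ins E X u).card ≤ (ins E W u).card + (ins E Y u).card := by
    intro u
    rw [hXW]
    refine le_trans (card_le_card ?_) (card_union_le _ _)
    intro y hy
    rw [ins, mem_filter, mem_union] at hy
    rw [mem_union, ins, ins, mem_filter, mem_filter]
    rcases hy.1 with h | h
    · exact Or.inl ⟨h, hy.2⟩
    · exact Or.inr ⟨h, hy.2⟩
  have hXu : ∀ u, (outs E X u).card ≤ (outs E univ u).card := fun u =>
    card_le_card (filter_subset_filter _ (subset_univ _))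
  have hreg : ∀ u ∈ W, u ∉ B 0 → D ≤ (outs E W u).card + 2 * g ∧
      D ≤ (ins E W u).card + 2 * g ∧ (outs E X u).card + (ins E X u).card < 2 * D + g := by
    intro u hu huI
    rw [hB0, irr, mem_filter, not_and, not_or, not_or] at huI
    obtain ⟨k1, k2, k3⟩ := huI hu
    have k4 := hX1 u
    have k5 := hX2 u
    have k6 := hXu u
    have k7 := h1 u hu
    have k8 := h2 u hu
    refine ⟨by omega, by omega, by omega⟩
  have hmemB : ∀ h, ∀ u ∈ W, u ∉ B (h + 1) → (outs E (B h) u).card + (ins E (B h) u).card ≤ g := by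
    intro h u hu hb
    have hb' : u ∉ B h ∪ W.filter (fun z => g < (outs E (B h) z).card + (ins E (B h) z).card) := hb
    rw [mem_union, not_or, mem_filter, not_and, not_lt] at hb'
    exact hb'.2 hu
  have hzB' : ∀ h, h ≤ J + 1 → z ∉ B h := fun h hh hz => hzB (hBmono hh hz)
  have hzJ := hmemB (J) z hzW hzB
  have hNI : (N ∩ W ∩ B 0).card ≤ g := by
    refine le_trans (card_le_card ?_) (le_trans (Nat.le_add_right _ _) hzJ)
    intro y hy
    rw [mem_inter, mem_inter] at hy
    rw [outs, mem_filter]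
    refine ⟨hBmono (Nat.zero_le _) hy.2, ?_⟩
    have := hy.1.1
    rw [hN, outs, mem_filter] at this
    exact this.2
  -- thresholds
  have heD : ∀ h, h ≤ J → 250 * (1000 ^ h * g) ≤ D := by
    intro h hh
    have h3 : 1000 ^ h ≤ 1000 ^ (J) := Nat.pow_le_pow_right (by norm_num) hh
    have h4 : 1000 ^ (J + 2) = 1000 ^ (J) * 1000000 := by rw [pow_add 1000 (J) 2]; norm_num
    calc 250 * (1000 ^ h * g) ≤ 250 * (1000 ^ (J) * g) := by gcongr
      _ ≤ (1000 ^ (J) * 1000000) * g := by nlinarith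
      _ ≤ D := by rw [← h4]; exact hg1
  have heg : ∀ h, g ≤ 1000 ^ h * g := fun h => Nat.le_mul_of_pos_left g (by positivity)
  -- poor vertices outside N
  have hpO : ∀ h, h ≤ J →
      (((W \ B h) \ N).filter (fun y => (outs E (W \ N) y).card < 1000 ^ h * g)).card ≤
        200 * (1000 ^ h * g) := by
    intro h hh
    refine claimM hE hs hi crit hWX hH hL hg0 (heg h) (heD h hh)
      (fun u hu hI => (hreg u hu hI).1) (fun u hu hI => (hreg u hu hI).2.1)
      (fun u hu hI => (hreg u hu hI).2.2) hNc hNI ?_ ?_ ?_ (Or.inl ?_)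
    · intro y hy
      exact (mem_sdiff.1 (mem_sdiff.1 (mem_filter.1 hy).1).1).1
    · rw [disjoint_left]
      intro y hy hy0
      exact (mem_sdiff.1 (mem_sdiff.1 (mem_filter.1 hy).1).1).2 (hBmono (Nat.zero_le _) hy0)
    · rw [disjoint_left]
      intro y hy hy0
      exact (mem_sdiff.1 (mem_filter.1 hy).1).2 hy0
    · intro y hy
      exact (mem_filter.1 hy).2
  have hpI : ∀ h, h ≤ J →
      (((W \ B h) \ N).filter (fun y => (ins E (W \ N) y).card < 1000 ^ h * g)).card ≤
        200 * (1000 ^ h * g) := by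
    intro h hh
    refine claimM hE hs hi crit hWX hH hL hg0 (heg h) (heD h hh)
      (fun u hu hI => (hreg u hu hI).1) (fun u hu hI => (hreg u hu hI).2.1)
      (fun u hu hI => (hreg u hu hI).2.2) hNc hNI ?_ ?_ ?_ (Or.inr ?_)
    · intro y hy
      exact (mem_sdiff.1 (mem_sdiff.1 (mem_filter.1 hy).1).1).1
    · rw [disjoint_left]
      intro y hy hy0
      exact (mem_sdiff.1 (mem_sdiff.1 (mem_filter.1 hy).1).1).2 (hBmono (Nat.zero_le _) hy0)
    · rw [disjoint_left]
      intro y hy hy0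
      exact (mem_sdiff.1 (mem_filter.1 hy).1).2 hy0
    · intro y hy
      exact (mem_filter.1 hy).2
  set G : ℕ → Finset V := fun h => (W \ B h).filter
    (fun u => 1000 ^ h * g ≤ (outs E (W \ N) u).card ∧ 1000 ^ h * g ≤ (ins E (W \ N) u).card)
    with hG
  -- a vertex of W outside N is in G h, in B h, or poor
  have hcov : ∀ h, ∀ y ∈ W, y ∉ N → y ∈ G h ∨ y ∈ B h ∨
      y ∈ ((W \ B h) \ N).filter (fun y => (outs E (W \ N) y).card < 1000 ^ h * g) ∨
      y ∈ ((W \ B h) \ N).filter (fun y => (ins E (W \ N) y).card < 1000 ^ h * g) := by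
    intro h y hy hyN
    by_cases hyB : y ∈ B h
    · exact Or.inr (Or.inl hyB)
    by_cases hyO : (outs E (W \ N) y).card < 1000 ^ h * g
    · exact Or.inr (Or.inr (Or.inl (mem_filter.2 ⟨mem_sdiff.2 ⟨mem_sdiff.2 ⟨hy, hyB⟩, hyN⟩, hyO⟩)))
    by_cases hyI : (ins E (W \ N) y).card < 1000 ^ h * g
    · exact Or.inr (Or.inr (Or.inr (mem_filter.2 ⟨mem_sdiff.2 ⟨mem_sdiff.2 ⟨hy, hyB⟩, hyN⟩, hyI⟩)))
    · exact Or.inl (mem_filter.2 ⟨mem_sdiff.2 ⟨hy, hyB⟩, not_lt.1 hyO, not_lt.1 hyI⟩)
  have hcard4 : ∀ {A A1 A2 A3 A4 : Finset V}, A ⊆ A1 ∪ A2 ∪ A3 ∪ A4 →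
      A.card ≤ A1.card + A2.card + A3.card + A4.card := by
    intro A A1 A2 A3 A4 hA
    have k1 := card_le_card hA
    have k2 := card_union_le (A1 ∪ A2 ∪ A3) A4
    have k3 := card_union_le (A1 ∪ A2) A3
    have k4 := card_union_le A1 A2
    omega
  have hpow1 : ∀ h, 1000 ^ (h + 1) * g = 1000 * (1000 ^ h * g) := fun h => by ring
  have hpow2 : 1000 ^ (J + 2) * g = 1000000 * (1000 ^ (J) * g) := by ring
  suffices hsuff : ∃ f : κ → V, R.Copy E f ∧ f R.v = z by
    obtain ⟨f, hf, hfz⟩ := hsuff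
    refine ⟨f, hf, ?_⟩
    rw [hfz]
    exact hzW
  refine embed_z R hE (J := J) hJ (z := z) G ?_ ?_ ?_ hzD
  · intro h hh1 hh2 u hu
    rw [← hN]
    rw [hG, mem_filter, mem_sdiff] at hu
    obtain ⟨⟨huW, huB⟩, huO, huI⟩ := hu
    have k1 := hmemB h u huW huB
    have k2 := hpO h hh2.le
    have k3 := hpI h hh2.le
    have k4 := hpow1 h
    have k5 := heg h
    constructor
    · have k6 : outs E (W \ N) u ⊆ outs E (G h \ N) u ∪ outs E (B h) u ∪
          ((W \ B h) \ N).filter (fun y => (outs E (W \ N) y).card < 1000 ^ h * g) ∪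
          ((W \ B h) \ N).filter (fun y => (ins E (W \ N) y).card < 1000 ^ h * g) := by
        intro y hy
        rw [outs, mem_filter, mem_sdiff] at hy
        rw [mem_union, mem_union, mem_union]
        rcases hcov h y hy.1.1 hy.1.2 with k | k | k | k
        · exact Or.inl (Or.inl (Or.inl (mem_filter.2 ⟨mem_sdiff.2 ⟨k, hy.1.2⟩, hy.2⟩)))
        · exact Or.inl (Or.inl (Or.inr (mem_filter.2 ⟨k, hy.2⟩)))
        · exact Or.inl (Or.inr k)
        · exact Or.inr k
      have k7 := hcard4 k6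
      omega
    · have k6 : ins E (W \ N) u ⊆ ins E (G h \ N) u ∪ ins E (B h) u ∪
          ((W \ B h) \ N).filter (fun y => (outs E (W \ N) y).card < 1000 ^ h * g) ∪
          ((W \ B h) \ N).filter (fun y => (ins E (W \ N) y).card < 1000 ^ h * g) := by
        intro y hy
        rw [ins, mem_filter, mem_sdiff] at hy
        rw [mem_union, mem_union, mem_union]
        rcases hcov h y hy.1.1 hy.1.2 with k | k | k | k
        · exact Or.inl (Or.inl (Or.inl (mem_filter.2 ⟨mem_sdiff.2 ⟨k, hy.1.2⟩, hy.2⟩)))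
        · exact Or.inl (Or.inl (Or.inr (mem_filter.2 ⟨k, hy.2⟩)))
        · exact Or.inl (Or.inr k)
        · exact Or.inr k
      have k7 := hcard4 k6
      omega
  · -- out-neighbours of z
    have k1 := (hreg z hzW (hzB' 0 (Nat.zero_le _))).1
    have kO : (((W \ B (J)) ∩ N).filter
        (fun y => (outs E (W \ N) y).card < 1000 ^ (J) * g)).card ≤
        6 * g + 2 * (1000 ^ (J) * g) := by
      refine inN (W := W) hE hNc ?_ ?_ (Or.inl ?_)
      · intro y hy
        exact (mem_sdiff.1 (mem_inter.1 (mem_filter.1 hy).1).1).1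
      · intro y hy
        exact (mem_inter.1 (mem_filter.1 hy).1).2
      · intro y hy
        have hy1 := mem_sdiff.1 (mem_inter.1 (mem_filter.1 hy).1).1
        exact ⟨(hreg y hy1.1 (fun h => hy1.2 (hBmono (Nat.zero_le _) h))).1, (mem_filter.1 hy).2⟩
    have kI : (((W \ B (J)) ∩ N).filter
        (fun y => (ins E (W \ N) y).card < 1000 ^ (J) * g)).card ≤
        6 * g + 2 * (1000 ^ (J) * g) := by
      refine inN (W := W) hE hNc ?_ ?_ (Or.inr ?_)
      · intro y hy
        exact (mem_sdiff.1 (mem_inter.1 (mem_filter.1 hy).1).1).1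
      · intro y hy
        exact (mem_inter.1 (mem_filter.1 hy).1).2
      · intro y hy
        have hy1 := mem_sdiff.1 (mem_inter.1 (mem_filter.1 hy).1).1
        exact ⟨(hreg y hy1.1 (fun h => hy1.2 (hBmono (Nat.zero_le _) h))).2.1,
          (mem_filter.1 hy).2⟩
    have k6 : outs E W z ⊆ outs E (G (J)) z ∪ outs E (B (J)) z ∪
        ((W \ B (J)) ∩ N).filter (fun y => (outs E (W \ N) y).card < 1000 ^ (J) * g) ∪
        ((W \ B (J)) ∩ N).filter (fun y => (ins E (W \ N) y).card < 1000 ^ (J) * g) := by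
      intro y hy
      rw [outs, mem_filter] at hy
      have hyN : y ∈ N := by
        rw [hN, outs, mem_filter]
        exact ⟨mem_univ _, hy.2⟩
      rw [mem_union, mem_union, mem_union]
      by_cases hyB : y ∈ B (J)
      · exact Or.inl (Or.inl (Or.inr (mem_filter.2 ⟨hyB, hy.2⟩)))
      by_cases hyO : (outs E (W \ N) y).card < 1000 ^ (J) * g
      · exact Or.inl (Or.inr (mem_filter.2 ⟨mem_inter.2 ⟨mem_sdiff.2 ⟨hy.1, hyB⟩, hyN⟩, hyO⟩))
      by_cases hyI : (ins E (W \ N) y).card < 1000 ^ (J) * g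
      · exact Or.inr (mem_filter.2 ⟨mem_inter.2 ⟨mem_sdiff.2 ⟨hy.1, hyB⟩, hyN⟩, hyI⟩)
      · exact Or.inl (Or.inl (Or.inl (mem_filter.2 ⟨mem_filter.2
          ⟨mem_sdiff.2 ⟨hy.1, hyB⟩, not_lt.1 hyO, not_lt.1 hyI⟩, hy.2⟩)))
    have k7 := hcard4 k6
    have k8 := heg (J)
    omega
  · -- in-neighbours of z
    have k1 := (hreg z hzW (hzB' 0 (Nat.zero_le _))).2.1
    have k2 := hpO (J) le_rfl
    have k3 := hpI (J) le_rfl
    have k6 : ins E W z ⊆ ins E (G (J)) z ∪ ins E (B (J)) z ∪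
        ((W \ B (J)) \ N).filter (fun y => (outs E (W \ N) y).card < 1000 ^ (J) * g) ∪
        ((W \ B (J)) \ N).filter (fun y => (ins E (W \ N) y).card < 1000 ^ (J) * g) := by
      intro y hy
      rw [ins, mem_filter] at hy
      have hyN : y ∉ N := by
        rw [hN, outs, mem_filter]
        intro h
        exact hE _ _ hy.2 h.2
      rw [mem_union, mem_union, mem_union]
      rcases hcov (J) y hy.1 hyN with k | k | k | k
      · exact Or.inl (Or.inl (Or.inl (mem_filter.2 ⟨k, hy.2⟩)))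
      · exact Or.inl (Or.inl (Or.inr (mem_filter.2 ⟨k, hy.2⟩)))
      · exact Or.inl (Or.inr k)
      · exact Or.inr k
    have k7 := hcard4 k6
    have k8 := heg (J)
    omega

end Pool.Agent.Work.MP_fcea8e_co.Dom
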