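import Pool.Agent.Work.MP_fcea8e_co.Lin.Prop2J
import Pool.Agent.Work.MP_fcea8e_co.Dom.NumDefs

/-!
Thresholds.
-/

set_option autoImplicit false

namespace Pool.Agent.Work.MP_fcea8e_co.Dom

open Finset

theorem cst_leJ (s J h : ℕ) :
    cst s (2 * 1000 ^ (J + 2)) h ≤ 9 * s * (1000 ^ (J + 3)) ^ h := by
  induction h with
  | zero => simp [cst]; omega
  | succ h ih =>
    have h1 : (1 + 2 * (2 * 1000 ^ (J + 2))) + 1 ≤ 1000 ^ (J + 3) := by
      have h2 : 1000 ^ (J + 3) = 1000 * 1000 ^ (J + 2) := by ring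
      have h3 : 0 < 1000 ^ (J + 2) := by positivity
      omega
    have h4 : 2 * s ≤ 9 * s * (1000 ^ (J + 3)) ^ h := by
      have h5 : 1 ≤ (1000 ^ (J + 3)) ^ h := Nat.one_le_pow _ _ (by positivity)
      calc 2 * s ≤ 9 * s * 1 := by omega
        _ ≤ 9 * s * (1000 ^ (J + 3)) ^ h := Nat.mul_le_mul_left _ h5
    rw [cst]
    calc (1 + 2 * (2 * 1000 ^ (J + 2))) * cst s (2 * 1000 ^ (J + 2)) h + 2 * s
        ≤ (1 + 2 * (2 * 1000 ^ (J + 2))) * (9 * s * (1000 ^ (J + 3)) ^ h) +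
          9 * s * (1000 ^ (J + 3)) ^ h := Nat.add_le_add (Nat.mul_le_mul_left _ ih) h4
      _ = ((1 + 2 * (2 * 1000 ^ (J + 2))) + 1) * (9 * s * (1000 ^ (J + 3)) ^ h) := by ring
      _ ≤ 1000 ^ (J + 3) * (9 * s * (1000 ^ (J + 3)) ^ h) := Nat.mul_le_mul_right _ h1
      _ = 9 * s * (1000 ^ (J + 3)) ^ (h + 1) := by ring

theorem small_leJ (J : ℕ) : 3 + 24 * (J + 1) ≤ 1000 ^ (J + 1) := by
  induction J with
  | zero => norm_num
  | succ J ih =>
    have h1 : 1000 ^ (J + 1 + 1) = 1000 * 1000 ^ (J + 1) := by ring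
    rw [h1]
    omega

/-- the threshold -/
def thr (s J : ℕ) : ℕ := (s + 1) * 1000 ^ ((J + 2) * (J + 3))

theorem thr_a {s J D : ℕ} (h : thr s J ≤ D) :
    s + (2 * s + 1) + 12 * (2 * s + 1) * (J + 1) + 1 ≤ D := by
  refine le_trans ?_ h
  have h1 := small_leJ J
  calc s + (2 * s + 1) + 12 * (2 * s + 1) * (J + 1) + 1
      ≤ (s + 1) * (3 + 24 * (J + 1)) := by nlinarith
    _ ≤ (s + 1) * 1000 ^ (J + 1) := Nat.mul_le_mul_left _ h1
    _ ≤ thr s J := by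
      unfold thr
      apply Nat.mul_le_mul_left
      apply Nat.pow_le_pow_right (by norm_num)
      nlinarith

theorem thr_b {s J D : ℕ} (h : thr s J ≤ D) :
    1000 ^ (J + 2) * (cst s (2 * 1000 ^ (J + 2)) (J + 1) + 3 * s + 3) ≤ D := by
  refine le_trans ?_ h
  have h1 := cst_leJ s J (J + 1)
  obtain ⟨Q, hQ⟩ : ∃ Q, Q = (1000 ^ (J + 3)) ^ (J + 1) := ⟨_, rfl⟩
  have hQ1 : 1 ≤ Q := by rw [hQ]; exact Nat.one_le_pow _ _ (by positivity)
  rw [← hQ] at h1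
  have h2 : cst s (2 * 1000 ^ (J + 2)) (J + 1) + 3 * s + 3 ≤ (s + 1) * (1000 * Q) := by
    have h3 : 3 * s + 3 ≤ (3 * s + 3) * Q := Nat.le_mul_of_pos_right _ hQ1
    have h4 : 9 * s * Q + (3 * s + 3) * Q = (12 * s + 3) * Q := by ring
    have h5 : (12 * s + 3) * Q ≤ ((s + 1) * 1000) * Q := Nat.mul_le_mul_right _ (by omega)
    have h6 : ((s + 1) * 1000) * Q = (s + 1) * (1000 * Q) := by ring
    omega
  calc 1000 ^ (J + 2) * (cst s (2 * 1000 ^ (J + 2)) (J + 1) + 3 * s + 3)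
      ≤ 1000 ^ (J + 2) * ((s + 1) * (1000 * Q)) := Nat.mul_le_mul_left _ h2
    _ = (s + 1) * (1000 ^ (J + 2) * 1000 ^ 1 * Q) := by ring
    _ = thr s J := by
      unfold thr
      rw [hQ, ← pow_mul, ← pow_add, ← pow_add]
      congr 2
      ring

theorem prop2T {κ V : Type} [Fintype κ] [Fintype V] (R : RT κ) {E : V → V → Prop} (hE : Asym E)
    {s J : ℕ} (hJ : ∀ t, R.dep t ≤ J)
    (hcard : Fintype.card κ ≤ R.outCh.card + 1 + s)
    (hD : thr s J ≤ R.outCh.card) (C : CritData2 E R.outCh.card s) :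
    ∃ f : κ → V, R.Copy E f ∧ f R.v ∈ C.W := by
  have hb := thr_b hD
  have hcore := R.card_core hcard
  have hK : 0 < 1000 ^ (J + 2) := by positivity
  have h1 : cst s (2 * 1000 ^ (J + 2)) (J + 1) + 3 * s + 3 ≤
      R.outCh.card / 1000 ^ (J + 2) := by
    rw [Nat.le_div_iff_mul_le hK, mul_comm]
    exact hb
  have h2 : 1000 ^ (J + 2) * (R.outCh.card / 1000 ^ (J + 2)) ≤ R.outCh.card :=
    Nat.mul_div_le _ _
  have h3 : R.outCh.card < 1000 ^ (J + 2) * (R.outCh.card / 1000 ^ (J + 2)) + 1000 ^ (J + 2) := by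
    have := Nat.lt_mul_div_succ R.outCh.card hK
    rw [mul_add, mul_one] at this
    exact this
  have h4 : 1000 ^ (J + 2) ≤ 1000 ^ (J + 2) * (R.outCh.card / 1000 ^ (J + 2)) :=
    Nat.le_mul_of_pos_right _ (by omega)
  refine prop2J R hE hJ (g := R.outCh.card / 1000 ^ (J + 2)) h2 ?_ ?_ ?_ C
  · rw [mul_assoc]
    omega
  · omega
  · omega

end Pool.Agent.Work.MP_fcea8e_co.Dom
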